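import Pool.Agent.K1H22.SR.Stm3

/-! Project SR (MP_60edde_al), piece SG: subgroups. -/

set_option autoImplicit false

namespace Pool.Agent.K1H91.SG

open Pool.Agent.K1H22.SR2

variable {H G M T : Type} [Group H] [Group G] [AddCommMonoid M]

open Classical in
/-- the edges with the image labels -/
noncomputable def im (φ : H →* G) (E : Finset (T × H × M × T)) : Finset (T × G × M × T) :=
  E.image fun x => (x.1, φ x.2.1, x.2.2.1, x.2.2.2)

lemma push (φ : H →* G) (E : Finset (T × H × M × T)) {p q : T} {h : H} {v : M} (hg : GW E p q h v) :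
    GW (im φ E) p q (φ h) v := by
  classical
  induction hg with
  | nil => rw [map_one]; exact GW.nil
  | cons he _ ih =>
    rw [map_mul]
    exact GW.cons (Finset.mem_image.2 ⟨_, he, rfl⟩) ih

lemma pull (φ : H →* G) (E : Finset (T × H × M × T)) {p q : T} {g : G} {v : M} (hg : GW (im φ E) p q g v) :
    ∃ h, φ h = g ∧ GW E p q h v := by
  classical
  induction hg with
  | nil => exact ⟨1, map_one φ, GW.nil⟩
  | cons he _ ih =>
    obtain ⟨h, h1, h2⟩ := ih
    obtain ⟨x, hx, hx2⟩ := Finset.mem_image.1 he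
    obtain ⟨a, b, c, d⟩ := x
    simp only [Prod.mk.injEq] at hx2
    obtain ⟨rfl, rfl, rfl, rfl⟩ := hx2
    exact ⟨b * h, by rw [map_mul, h1], GW.cons hx h2⟩

theorem t_SG : Pool.Agent.K1H22.SR2.S_SG := by
  intro H G _ _ φ hφ hG M T _ _ _ E p q
  have h : {v : M | GW E p q 1 v} = {v : M | GW (im φ E) p q 1 v} := by
    ext v
    constructor
    · intro hv
      have h1 := push φ E hv
      rw [map_one] at h1
      exact h1
    · intro hv
      obtain ⟨h, h1, h2⟩ := pull φ E hv
      have h3 : h = 1 := hφ (by rw [h1, map_one])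
      rw [h3] at h2
      exact h2
  rw [h]
  exact hG M T (im φ E) p q

end Pool.Agent.K1H91.SG
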